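import Mathlib

namespace Pool.Agent.Results.MP_368cee_co.DegreeFour

open Finset

/-- The degree of the vertex `v` in the hypergraph with vertex set `V` and set of hyperedges
`E`: the number of hyperedges containing `v`. -/
def degree {V : Type} [DecidableEq V] (E : Finset (Finset V)) (v : V) : ℕ :=
  (E.filter (fun e => v ∈ e)).card

/-- `φ` is a strong odd colouring of the hypergraph `(V, E)` with colours in `Fin t`: for every
hyperedge `e` and every colour `i`, the number of vertices of `e` of colour `i` is `0` or odd. -/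
def StrongOdd {V : Type} [DecidableEq V] (E : Finset (Finset V)) {t : ℕ} (φ : V → Fin t) : Prop :=
  ∀ e ∈ E, ∀ i : Fin t,
    (e.filter (fun v => φ v = i)).card = 0 ∨ Odd (e.filter (fun v => φ v = i)).card

/-- The strong odd chromatic number of the hypergraph `(V, E)`: the least `t` for which a strong
odd colouring with `t` colours exists. -/
noncomputable def chiSO {V : Type} [DecidableEq V] (E : Finset (Finset V)) : ℕ :=
  sInf {t : ℕ | ∃ φ : V → Fin t, StrongOdd E φ}

section construction

variable (N : ℕ)

/-- The vertices of the hypergraph: the pairs `i < j` in `Fin N`. -/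
abbrev PairV : Type := {p : Fin N × Fin N // p.1 < p.2}

/-- The pairs with first coordinate `j`. -/
def setA (j : Fin N) : Finset (PairV N) := univ.filter (fun p => p.1.1 = j)

/-- The pairs with second coordinate `j`. -/
def setC (j : Fin N) : Finset (PairV N) := univ.filter (fun p => p.1.2 = j)

/-- The pairs containing `j`. -/
def setB (j : Fin N) : Finset (PairV N) := univ.filter (fun p => p.1.1 = j ∨ p.1.2 = j)

/-- The set of hyperedges. -/
def edges : Finset (Finset (PairV N)) :=
  (univ.image (setA N)) ∪ (univ.image (setC N)) ∪ (univ.image (setB N))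

theorem degree_le (v : PairV N) : degree (edges N) v ≤ 4 := by
  have hsub : (edges N).filter (fun e => v ∈ e) ⊆
      {setA N v.1.1, setC N v.1.2, setB N v.1.1, setB N v.1.2} := by
    intro e he
    rw [mem_filter] at he
    obtain ⟨he, hv⟩ := he
    simp only [edges, mem_union, mem_image, mem_univ, true_and] at he
    simp only [mem_insert, mem_singleton]
    rcases he with (⟨j, rfl⟩ | ⟨j, rfl⟩) | ⟨j, rfl⟩
    · simp only [setA, mem_filter, mem_univ, true_and] at hv
      left; rw [hv]
    · simp only [setC, mem_filter, mem_univ, true_and] at hv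
      right; left; rw [hv]
    · simp only [setB, mem_filter, mem_univ, true_and] at hv
      rcases hv with hv | hv
      · right; right; left; rw [hv]
      · right; right; right; rw [hv]
  exact le_trans (card_le_card hsub) card_le_four

theorem setB_filter_card {t : ℕ} (φ : PairV N → Fin t) (j : Fin N) (a : Fin t) :
    ((setB N j).filter (fun v => φ v = a)).card =
      ((setA N j).filter (fun v => φ v = a)).card +
        ((setC N j).filter (fun v => φ v = a)).card := by
  rw [← card_union_of_disjoint]
  · congr 1
    ext p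
    simp only [setA, setB, setC, mem_filter, mem_univ, true_and, mem_union]
    tauto
  · rw [disjoint_left]
    intro p hp hq
    simp only [setA, setC, mem_filter, mem_univ, true_and] at hp hq
    have h := p.2
    rw [hp.1, hq.1] at h
    exact lt_irrefl _ h

theorem colour_ne {t : ℕ} {φ : PairV N → Fin t} (hφ : StrongOdd (edges N) φ)
    {p q : PairV N} (h : p.1.2 = q.1.1) : φ p ≠ φ q := by
  intro heq
  have hA : setA N q.1.1 ∈ edges N := by simp [edges]
  have hC : setC N q.1.1 ∈ edges N := by simp [edges]
  have hB : setB N q.1.1 ∈ edges N := by simp [edges]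
  have h1 := hφ _ hA (φ q)
  have h2 := hφ _ hC (φ q)
  have h3 := hφ _ hB (φ q)
  have hqA : q ∈ (setA N q.1.1).filter (fun v => φ v = φ q) := by simp [setA]
  have hpC : p ∈ (setC N q.1.1).filter (fun v => φ v = φ q) := by simp [setC, h, heq]
  have c1 := card_pos.mpr ⟨q, hqA⟩
  have c2 := card_pos.mpr ⟨p, hpC⟩
  rw [setB_filter_card] at h3
  generalize ((setA N q.1.1).filter (fun v => φ v = φ q)).card = x at *
  generalize ((setC N q.1.1).filter (fun v => φ v = φ q)).card = y at *
  rcases h1 with h1 | h1
  · omega
  rcases h2 with h2 | h2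
  · omega
  rcases h3 with h3 | h3
  · omega
  exact (Nat.not_odd_iff_even.mpr (h1.add_odd h2)) h3

theorem le_two_pow {t : ℕ} {φ : PairV N → Fin t} (hφ : StrongOdd (edges N) φ) : N ≤ 2 ^ t := by
  classical
  let S : Fin N → Finset (Fin t) := fun i => (setA N i).image φ
  have key : ∀ i j : Fin N, i < j → S i ≠ S j := by
    intro i j hij hS
    let p : PairV N := ⟨(i, j), hij⟩
    have h1 : φ p ∈ S i := mem_image_of_mem _ (by simp [setA, p])
    rw [hS] at h1
    obtain ⟨q, hq, hqp⟩ := mem_image.mp h1
    simp only [setA, mem_filter, mem_univ, true_and] at hq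
    exact colour_ne N hφ (p := p) (q := q) (by simp [p, hq]) hqp.symm
  have hinj : Function.Injective S := by
    intro i j hS
    rcases lt_trichotomy i j with h | h | h
    · exact absurd hS (key i j h)
    · exact h
    · exact absurd hS.symm (key j i h)
  have := Fintype.card_le_of_injective S hinj
  simpa using this

end construction

theorem exists_colouring {V : Type} [Fintype V] [DecidableEq V] (E : Finset (Finset V)) :
    ∃ φ : V → Fin (Fintype.card V), StrongOdd E φ := by
  refine ⟨Fintype.equivFin V, ?_⟩
  intro e _ i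
  have h : (e.filter (fun v => Fintype.equivFin V v = i)).card ≤ 1 := by
    rw [card_le_one]
    intro a ha b hb
    rw [mem_filter] at ha hb
    exact (Fintype.equivFin V).injective (ha.2.trans hb.2.symm)
  generalize (e.filter (fun v => Fintype.equivFin V v = i)).card = x at *
  interval_cases x
  · left; rfl
  · right; exact odd_one

theorem le_two_pow_chiSO (N : ℕ) : N ≤ 2 ^ chiSO (edges N) := by
  have hne : {t : ℕ | ∃ φ : PairV N → Fin t, StrongOdd (edges N) φ}.Nonempty :=
    ⟨_, exists_colouring (edges N)⟩
  obtain ⟨φ, hφ⟩ := Nat.sInf_mem hne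
  exact le_two_pow N hφ

theorem card_pairV (N : ℕ) : Fintype.card (PairV N) ≤ N ^ 2 := by
  refine le_trans (Fintype.card_subtype_le _) ?_
  simp [sq]

/-- For every `N` there is a hypergraph with at most `N ^ 2` vertices, with maximum degree at
most `4`, and with strong odd chromatic number at least `log₂ N`. Hence no constant `c(Δ)` bounds the
strong odd chromatic number of the hypergraphs with maximum degree at most `Δ`, for any
`Δ ≥ 4`. -/
theorem result :
    (∀ N : ℕ, ∃ (V : Type) (_ : Fintype V) (_ : DecidableEq V) (E : Finset (Finset V)),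
      Fintype.card V ≤ N ^ 2 ∧ (∀ v, degree E v ≤ 4) ∧ N ≤ 2 ^ chiSO E) ∧
    (∀ Δ : ℕ, 4 ≤ Δ → ¬ ∃ c : ℕ, ∀ (V : Type) (_ : Fintype V) (_ : DecidableEq V)
      (E : Finset (Finset V)), (∀ v, degree E v ≤ Δ) → chiSO E ≤ c) ∧
    ¬ (∀ Δ : ℕ, 1 ≤ Δ → ∃ c : ℕ, ∀ (V : Type) (_ : Fintype V) (_ : DecidableEq V)
      (E : Finset (Finset V)), (∀ v, degree E v ≤ Δ) → chiSO E ≤ c) := by
  have main : ∀ Δ : ℕ, 4 ≤ Δ → ¬ ∃ c : ℕ, ∀ (V : Type) (_ : Fintype V) (_ : DecidableEq V)
      (E : Finset (Finset V)), (∀ v, degree E v ≤ Δ) → chiSO E ≤ c := by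
    rintro Δ hΔ ⟨c, hc⟩
    have h1 := hc (PairV (2 ^ c + 1)) inferInstance inferInstance (edges (2 ^ c + 1))
      (fun v => (degree_le _ v).trans hΔ)
    have h2 := le_two_pow_chiSO (2 ^ c + 1)
    have h3 : 2 ^ chiSO (edges (2 ^ c + 1)) ≤ 2 ^ c := Nat.pow_le_pow_right (by norm_num) h1
    omega
  refine ⟨?_, main, fun h => main 4 le_rfl (h 4 (by norm_num))⟩
  intro N
  exact ⟨PairV N, inferInstance, inferInstance, edges N, card_pairV N, degree_le N,
    le_two_pow_chiSO N⟩

end Pool.Agent.Results.MP_368cee_co.DegreeFour
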